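import Pool.Agent.K3h21.PP.Small
import Pool.Agent.K3h21.PP.Comb2

/-!
For every `n > 34` there are more partitions of `n` with an even number of missing integers than
partitions of `n` with an odd number of missing integers.
-/

namespace Pool.Agent.Results.MP_657ff6_co.EvenMissingBias

/-- The number of missing integers of a partition: positive integers `k` smaller than the largest
part which do not occur as a part. -/
def missing {n : ℕ} (p : n.Partition) : ℕ :=
  ((Finset.range p.parts.sup).filter (fun k => 1 ≤ k ∧ k ∉ p.parts)).card

/-- Number of partitions of `n` with an even number of missing integers. -/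
def Me (n : ℕ) : ℕ := (Finset.univ.filter (fun p : n.Partition => Even (missing p))).card

/-- Number of partitions of `n` with an odd number of missing integers. -/
def Mo (n : ℕ) : ℕ := (Finset.univ.filter (fun p : n.Partition => Odd (missing p))).card

lemma diff_eq (n : ℕ) : (Me n : ℤ) - Mo n = K3h21.PP.sgn n := by
  unfold Me Mo K3h21.PP.sgn
  rw [Finset.card_filter, Finset.card_filter]
  push_cast
  rw [← Finset.sum_sub_distrib]
  apply Finset.sum_congr rfl
  intro p _
  have h : missing p = K3h21.PP.missing p := rfl
  rcases Nat.even_or_odd (missing p) with he | ho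
  · rw [if_pos he, if_neg (Nat.not_odd_iff_even.2 he), ← h, he.neg_one_pow]; ring
  · rw [if_neg (Nat.not_even_iff_odd.2 ho), if_pos ho, ← h, ho.neg_one_pow]; ring

/-- For all `n > 34` the even count is larger than the odd count. -/
theorem result : ∀ n : ℕ, 34 < n → Mo n < Me n := by
  intro n hn
  have h1 := diff_eq n
  have h2 := K3h21.PP.A_pos hn
  rw [K3h21.PP.sgn_eq_coeff] at h1
  have h3 : K3h21.PP.A n = (K3h21.PP.P n (Polynomial.X : Polynomial ℤ)).coeff n := rfl
  rw [← h3] at h1
  omega

end Pool.Agent.Results.MP_657ff6_co.EvenMissingBias
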